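import Mathlib

/-!
# A mixed cubic sum of Shapiro Catalan triangle numbers

We prove the closed form for the sums of `B n k ^ 2 * B m k`, where
`B n k = (k / n) * choose (2 n) (n - k)` are the entries of Shapiro's Catalan triangle.

The proof: a Gosper / Zeilberger type telescoping in `k` gives a first order inhomogeneous
recurrence in `m`, valid for every `m`; it is solved in closed form, and a second telescoping
converts the solution to the shape wanted for `n ≤ m`.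
-/

namespace Pool.Agent.Results.MP_651eca_nt.MixedCubicSum

open Finset

/-- The entries of Shapiro's Catalan triangle. -/
def B (n k : ℕ) : ℚ := (k : ℚ) / n * (Nat.choose (2 * n) (n - k) : ℚ)

/-- normalised binomial coefficients -/
def p (n k : ℕ) : ℚ := (Nat.choose (2 * n) (n + k) : ℚ) / (Nat.choose (2 * n) n : ℚ)

lemma cent_ne (n : ℕ) : (Nat.choose (2 * n) n : ℚ) ≠ 0 := by
  have : 0 < Nat.choose (2 * n) n := Nat.choose_pos (by omega)
  exact_mod_cast this.ne'

lemma p_zero (n : ℕ) : p n 0 = 1 := by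
  unfold p
  rw [Nat.add_zero]
  exact div_self (cent_ne n)

lemma p_big (n k : ℕ) (h : n < k) : p n k = 0 := by
  unfold p
  rw [Nat.choose_eq_zero_of_lt (by omega)]
  simp

lemma p_succ (n k : ℕ) : p n (k + 1) * ((n : ℚ) + k + 1) = p n k * ((n : ℚ) - k) := by
  unfold p
  have h := Nat.choose_succ_right_eq (2 * n) (n + k)
  have h2 : (Nat.choose (2 * n) (n + k + 1) : ℚ) * ((n : ℚ) + k + 1)
      = (Nat.choose (2 * n) (n + k) : ℚ) * ((n : ℚ) - k) := by
    by_cases hk : k ≤ n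
    · have e : 2 * n - (n + k) = n - k := by omega
      rw [e] at h
      have h' : ((Nat.choose (2 * n) (n + k + 1) * (n + k + 1) : ℕ) : ℚ)
        = ((Nat.choose (2 * n) (n + k) * (n - k) : ℕ) : ℚ) := by exact_mod_cast h
      push_cast [Nat.cast_sub hk] at h'
      exact h'
    · rw [Nat.choose_eq_zero_of_lt (show 2 * n < n + k + 1 by omega),
        Nat.choose_eq_zero_of_lt (show 2 * n < n + k by omega)]
      simp
  rw [← add_assoc n k 1]
  rw [div_mul_eq_mul_div, div_mul_eq_mul_div, h2]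

lemma up_aux (m k : ℕ) : (Nat.choose (2 * (m + 1)) (m + 1 + k) : ℚ) * (((m : ℚ) + 1 - k) * ((m : ℚ) + 1 + k))
    = (Nat.choose (2 * m) (m + k) : ℚ) * ((2 * m + 1) * (2 * m + 2)) := by
  by_cases hk : k ≤ m + 1
  · have h1 := Nat.choose_mul_succ_eq (2 * m) (m + k)
    have h2 := Nat.add_one_mul_choose_eq (2 * m + 1) (m + k)
    have e1 : 2 * m + 1 - (m + k) = m + 1 - k := by omega
    rw [e1] at h1
    have h1' : ((Nat.choose (2 * m) (m + k) * (2 * m + 1) : ℕ) : ℚ)
      = ((Nat.choose (2 * m + 1) (m + k) * (m + 1 - k) : ℕ) : ℚ) := by exact_mod_cast h1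
    have h2' : (((2 * m + 1 + 1) * Nat.choose (2 * m + 1) (m + k) : ℕ) : ℚ)
      = ((Nat.choose (2 * m + 1 + 1) (m + k + 1) * (m + k + 1) : ℕ) : ℚ) := by exact_mod_cast h2
    push_cast [Nat.cast_sub hk] at h1' h2'
    have e2 : 2 * (m + 1) = 2 * m + 1 + 1 := by ring
    have e3 : m + 1 + k = m + k + 1 := by ring
    rw [e2, e3]
    linear_combination (-(2 * (m : ℚ) + 2)) * h1' - ((m : ℚ) + 1 - k) * h2'
  · rw [Nat.choose_eq_zero_of_lt (show 2 * (m + 1) < m + 1 + k by omega),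
      Nat.choose_eq_zero_of_lt (show 2 * m < m + k by omega)]
    simp

lemma p_up (m k : ℕ) : p (m + 1) k * (((m : ℚ) + 1 - k) * ((m : ℚ) + 1 + k))
    = ((m : ℚ) + 1) ^ 2 * p m k := by
  have h1 := up_aux m k
  have h0 := up_aux m 0
  unfold p
  have c1 := cent_ne m
  have c2 := cent_ne (m + 1)
  simp only [Nat.add_zero, Nat.cast_zero, sub_zero, add_zero] at h0
  rw [div_mul_eq_mul_div, h1]
  rw [div_eq_iff c2]
  have : ((m : ℚ) + 1) ^ 2 * ((Nat.choose (2 * m) (m + k) : ℚ) / (Nat.choose (2 * m) m : ℚ))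
      * (Nat.choose (2 * (m + 1)) (m + 1) : ℚ)
      = (Nat.choose (2 * m) (m + k) : ℚ) / (Nat.choose (2 * m) m : ℚ)
        * ((Nat.choose (2 * (m + 1)) (m + 1) : ℚ) * (((m : ℚ) + 1) * ((m : ℚ) + 1))) := by ring
  rw [this, h0]
  field_simp

/-- the basic sum -/
def U (n m : ℕ) : ℚ := ∑ k ∈ range n, ((k : ℚ) + 1) ^ 3 * p n (k + 1) ^ 2 * p m (k + 1)

/-- the antidifference -/
def H (n m k : ℕ) : ℚ :=
  -(1 / 2) * (((n : ℚ) + 2 * m + 2) * k * (k + 1) + n * (m + 1))
    * (p n (k + 1) * ((n : ℚ) + k + 1)) ^ 2 * (p (m + 1) (k + 1) * ((m : ℚ) + 1 + k + 1))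

lemma H_tel (n m k : ℕ) : ((n : ℚ) + m + 1) ^ 2 * (n + 2 * m)
      * (((k : ℚ) + 1) ^ 3 * p n (k + 1) ^ 2 * p (m + 1) (k + 1))
    - ((m : ℚ) + 1) ^ 2 * (n + 2 * m + 2)
      * (((k : ℚ) + 1) ^ 3 * p n (k + 1) ^ 2 * p m (k + 1))
    = H n m (k + 1) - H n m k := by
  have h1 := p_up m (k + 1)
  have h2 := p_succ n (k + 1)
  have h3 := p_succ (m + 1) (k + 1)
  unfold H
  push_cast at h1 h2 h3 ⊢
  have h2' : p n (k + 1 + 1) * ((n : ℚ) + (k + 1) + 1) = p n (k + 1) * ((n : ℚ) - (k + 1)) := h2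
  have h3' : p (m + 1) (k + 1 + 1) * ((m : ℚ) + 1 + (k + 1) + 1)
    = p (m + 1) (k + 1) * ((m : ℚ) + 1 - (k + 1)) := h3
  rw [h2', h3']
  have h1' : ((m : ℚ) + 1) ^ 2 * p m (k + 1)
    = p (m + 1) (k + 1) * (((m : ℚ) + 1 - (k + 1)) * ((m : ℚ) + 1 + (k + 1))) := h1.symm
  have e : ((m : ℚ) + 1) ^ 2 * (n + 2 * m + 2)
      * (((k : ℚ) + 1) ^ 3 * p n (k + 1) ^ 2 * p m (k + 1))
    = (((m : ℚ) + 1) ^ 2 * p m (k + 1)) * (n + 2 * m + 2) * (((k : ℚ) + 1) ^ 3 * p n (k + 1) ^ 2) := by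
    ring
  rw [e, h1']
  ring

lemma U_rec (n m : ℕ) : ((n : ℚ) + m + 1) ^ 2 * (n + 2 * m) * U n (m + 1)
    = ((m : ℚ) + 1) ^ 2 * (n + 2 * m + 2) * U n m + (n : ℚ) ^ 3 * ((m : ℚ) + 1) ^ 2 / 2 := by
  have h : ((n : ℚ) + m + 1) ^ 2 * (n + 2 * m) * U n (m + 1)
    - ((m : ℚ) + 1) ^ 2 * (n + 2 * m + 2) * U n m = H n m n - H n m 0 := by
    rw [← Finset.sum_range_sub (fun k => H n m k) n]
    unfold U
    rw [Finset.mul_sum, Finset.mul_sum, ← Finset.sum_sub_distrib]
    exact Finset.sum_congr rfl (fun k _ => H_tel n m k)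
  have hn : H n m n = 0 := by
    unfold H
    rw [p_big n (n + 1) (by omega)]
    ring
  have h0 : H n m 0 = -((n : ℚ) ^ 3 * ((m : ℚ) + 1) ^ 2 / 2) := by
    have a := p_succ n 0
    have b := p_succ (m + 1) 0
    rw [p_zero] at a b
    unfold H
    push_cast at a b ⊢
    simp only [zero_add, add_zero, sub_zero, one_mul, mul_zero, zero_mul] at a b ⊢
    rw [a, b]
    ring
  rw [hn, h0] at h
  linarith

/-- the first auxiliary sum -/
def T (n m : ℕ) : ℚ := ∑ j ∈ range m, (Nat.choose (n + j) n : ℚ) * (Nat.choose (n + j) (n - 1) : ℚ)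

lemma ch_ne (n m : ℕ) : (Nat.choose (n + m) n : ℚ) ≠ 0 := by
  have : 0 < Nat.choose (n + m) n := Nat.choose_pos (by omega)
  exact_mod_cast this.ne'

lemma ch_up (n m : ℕ) : (Nat.choose (n + (m + 1)) n : ℚ) * ((m : ℚ) + 1)
    = (Nat.choose (n + m) n : ℚ) * ((n : ℚ) + m + 1) := by
  have h := Nat.choose_mul_succ_eq (n + m) n
  have e : n + m + 1 - n = m + 1 := by omega
  rw [e] at h
  have h' : ((Nat.choose (n + m) n * (n + m + 1) : ℕ) : ℚ)
    = ((Nat.choose (n + m + 1) n * (m + 1) : ℕ) : ℚ) := by exact_mod_cast h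
  push_cast at h'
  rw [← add_assoc]
  linarith

lemma ch_pred (n m : ℕ) (hn : 1 ≤ n) : (Nat.choose (n + m) (n - 1) : ℚ) * ((m : ℚ) + 1)
    = (Nat.choose (n + m) n : ℚ) * n := by
  obtain ⟨a, rfl⟩ : ∃ a, n = a + 1 := ⟨n - 1, by omega⟩
  have h := Nat.choose_succ_right_eq (a + 1 + m) a
  have e : a + 1 + m - a = m + 1 := by omega
  rw [e] at h
  have h' : ((Nat.choose (a + 1 + m) (a + 1) * (a + 1) : ℕ) : ℚ)
    = ((Nat.choose (a + 1 + m) a * (m + 1) : ℕ) : ℚ) := by exact_mod_cast h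
  push_cast at h'
  rw [Nat.add_sub_cancel]
  push_cast
  linarith

lemma U_closed (n : ℕ) (hn : 1 ≤ n) (m : ℕ) :
    2 * U n m * (Nat.choose (n + m) n : ℚ) ^ 2
      = (n : ℚ) ^ 2 * (m * (Nat.choose (n + m) n : ℚ) ^ 2 - (n + 2 * m) * T n m) := by
  induction m with
  | zero =>
    have : U n 0 = 0 := by
      unfold U
      apply Finset.sum_eq_zero
      intro k _
      rw [p_big 0 (k + 1) (by omega)]
      ring
    rw [this]
    simp [T]
  | succ m ih =>
    have hT : T n (m + 1) = T n m + (Nat.choose (n + m) n : ℚ) * (Nat.choose (n + m) (n - 1) : ℚ) := by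
      unfold T
      rw [Finset.sum_range_succ]
    have hr := U_rec n m
    have hu := ch_up n m
    have hp := ch_pred n m hn
    have nn : (0 : ℚ) < n := by exact_mod_cast hn
    have mm : (0 : ℚ) ≤ m := by positivity
    have m1 : ((m : ℚ) + 1) ≠ 0 := by positivity
    have a1 : ((n : ℚ) + 2 * m) ≠ 0 := by positivity
    have a2 : ((n : ℚ) + m + 1) ≠ 0 := by positivity
    set C := (Nat.choose (n + m) n : ℚ) with hC
    have C0 : C ≠ 0 := ch_ne n m
    have hC1 : (Nat.choose (n + (m + 1)) n : ℚ) = C * ((n : ℚ) + m + 1) / ((m : ℚ) + 1) := by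
      rw [eq_div_iff m1]; exact hu
    have hC2 : (Nat.choose (n + m) (n - 1) : ℚ) = C * n / ((m : ℚ) + 1) := by
      rw [eq_div_iff m1]; exact hp
    have hU1 : U n (m + 1) = (((m : ℚ) + 1) ^ 2 * (n + 2 * m + 2) * U n m
        + (n : ℚ) ^ 3 * ((m : ℚ) + 1) ^ 2 / 2) / (((n : ℚ) + m + 1) ^ 2 * (n + 2 * m)) := by
      rw [eq_div_iff (by positivity)]
      linarith
    have hT0 : T n m = (m * C ^ 2 - 2 * U n m * C ^ 2 / (n : ℚ) ^ 2) / (n + 2 * m) := by
      rw [eq_div_iff a1]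
      field_simp
      linarith
    rw [hT, hC1, hC2, hU1, hT0]
    push_cast
    field_simp
    ring

/-- the second auxiliary sum -/
def T' (n m : ℕ) : ℚ := ∑ j ∈ range n, (Nat.choose (m + j) m : ℚ) * (Nat.choose (n + j) (n - 1) : ℚ)

lemma T'_rec (n m : ℕ) (hn : 1 ≤ n) :
    ((n : ℚ) + m + 1) * T' n (m + 1) - m * T' n m
      = n * (Nat.choose (2 * n) n : ℚ) * (Nat.choose (n + m) (n - 1) : ℚ) := by
  have m1 : ((m : ℚ) + 1) ≠ 0 := by positivity
  have key : ∀ j : ℕ, ((n : ℚ) + m + 1) * ((Nat.choose (m + 1 + j) (m + 1) : ℚ)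
        * (Nat.choose (n + j) (n - 1) : ℚ))
      - m * ((Nat.choose (m + j) m : ℚ) * (Nat.choose (n + j) (n - 1) : ℚ))
      = (((j + 1 : ℕ) : ℚ) * (((j + 1 : ℕ) : ℚ) + 1) * (Nat.choose (m + (j + 1)) m : ℚ)
          * (Nat.choose (n + (j + 1)) (n - 1) : ℚ) / ((m : ℚ) + 1))
        - ((j : ℚ) * ((j : ℚ) + 1) * (Nat.choose (m + j) m : ℚ)
          * (Nat.choose (n + j) (n - 1) : ℚ) / ((m : ℚ) + 1)) := by
    intro j
    have h1 := ch_up m j
    have h2 := ch_pred n j hn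
    have h3 := ch_pred n (j + 1) hn
    have h4 := ch_up n j
    have h5 := ch_pred (m + 1) j (by omega)
    have e5 : m + 1 - 1 = m := by omega
    rw [e5] at h5
    have e6 : m + 1 + j = m + (j + 1) := by ring
    rw [e6] at h5
    rw [e6]
    push_cast at h3 h5 ⊢
    have j1 : ((j : ℚ) + 1) ≠ 0 := by positivity
    have j2 : ((j : ℚ) + 1 + 1) ≠ 0 := by positivity
    have r1 : (Nat.choose (m + (j + 1)) m : ℚ) = (Nat.choose (m + j) m : ℚ) * ((m : ℚ) + j + 1) / (j + 1) := by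
      rw [eq_div_iff j1]; exact h1
    have r5 : (Nat.choose (m + (j + 1)) (m + 1) : ℚ)
        = (Nat.choose (m + (j + 1)) m : ℚ) * ((j : ℚ) + 1) / ((m : ℚ) + 1) := by
      rw [eq_div_iff m1]; linarith
    have r2 : (Nat.choose (n + j) (n - 1) : ℚ) = (Nat.choose (n + j) n : ℚ) * n / (j + 1) := by
      rw [eq_div_iff j1]; exact h2
    have r3 : (Nat.choose (n + (j + 1)) (n - 1) : ℚ)
        = (Nat.choose (n + (j + 1)) n : ℚ) * n / (j + 1 + 1) := by
      rw [eq_div_iff j2]; exact h3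
    have r4 : (Nat.choose (n + (j + 1)) n : ℚ) = (Nat.choose (n + j) n : ℚ) * ((n : ℚ) + j + 1) / (j + 1) := by
      rw [eq_div_iff j1]; exact h4
    rw [r5, r3, r4, r2, r1]
    field_simp
    ring
  have hs : ((n : ℚ) + m + 1) * T' n (m + 1) - m * T' n m
      = ((n : ℚ) * ((n : ℚ) + 1) * (Nat.choose (m + n) m : ℚ)
          * (Nat.choose (n + n) (n - 1) : ℚ) / ((m : ℚ) + 1)) - 0 := by
    have := Finset.sum_range_sub (fun j : ℕ => (j : ℚ) * ((j : ℚ) + 1) * (Nat.choose (m + j) m : ℚ)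
          * (Nat.choose (n + j) (n - 1) : ℚ) / ((m : ℚ) + 1)) n
    simp only [Nat.cast_zero, zero_mul, zero_div] at this
    rw [← this]
    unfold T'
    rw [Finset.mul_sum, Finset.mul_sum, ← Finset.sum_sub_distrib]
    exact Finset.sum_congr rfl (fun j _ => key j)
  rw [hs]
  have h2 := ch_pred n n hn
  have h3 := ch_pred n m hn
  have e : Nat.choose (m + n) m = Nat.choose (n + m) n := by
    rw [Nat.add_comm m n, Nat.choose_symm_add]
  have e2 : 2 * n = n + n := by ring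
  rw [e, e2, sub_zero, div_eq_iff m1]
  calc (n : ℚ) * ((n : ℚ) + 1) * (Nat.choose (n + m) n : ℚ) * (Nat.choose (n + n) (n - 1) : ℚ)
      = n * (Nat.choose (n + m) n : ℚ) * ((Nat.choose (n + n) (n - 1) : ℚ) * ((n : ℚ) + 1)) := by ring
    _ = n * (Nat.choose (n + n) n : ℚ) * ((Nat.choose (n + m) n : ℚ) * n) := by rw [h2]; ring
    _ = n * (Nat.choose (n + n) n : ℚ) * ((Nat.choose (n + m) (n - 1) : ℚ) * ((m : ℚ) + 1)) := by rw [h3]
    _ = _ := by ring

lemma T_T' (n : ℕ) (hn : 1 ≤ n) (m : ℕ) :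
    (n : ℚ) * (Nat.choose (2 * n) n : ℚ) * T n m = m * (Nat.choose (n + m) n : ℚ) * T' n m := by
  induction m with
  | zero => simp [T]
  | succ m ih =>
    have hT : T n (m + 1) = T n m + (Nat.choose (n + m) n : ℚ) * (Nat.choose (n + m) (n - 1) : ℚ) := by
      unfold T
      rw [Finset.sum_range_succ]
    have hr := T'_rec n m hn
    have hu := ch_up n m
    rw [hT]
    push_cast
    linear_combination ih - (Nat.choose (n + m) n : ℚ) * hr - T' n (m + 1) * hu

/-- The mixed cubic sum of Shapiro Catalan triangle numbers. -/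
theorem result (n m : ℕ) (hn : 1 ≤ n) (hm : 1 ≤ m) :
    ∑ k ∈ Icc 1 (min n m), B n k ^ 2 * B m k
      = 1 / 2 * (Nat.choose (2 * n) n : ℚ) ^ 2 * (Nat.choose (2 * m) m : ℚ)
        * (1 - ((n : ℚ) + 2 * m) / ((min n m : ℕ) : ℚ) * (Nat.choose (n + m) n : ℚ)⁻¹
            * (Nat.choose (n + min n m) n : ℚ)⁻¹
            * ∑ j ∈ range (min n m), (Nat.choose (max n m + j) (max n m) : ℚ)
                * (Nat.choose (n + j) (n - 1) : ℚ)) := by
  have nn : (0 : ℚ) < n := by exact_mod_cast hn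
  have mm : (0 : ℚ) < m := by exact_mod_cast hm
  have c1 := cent_ne n
  have c2 := cent_ne m
  have hL : ∑ k ∈ Icc 1 (min n m), B n k ^ 2 * B m k
      = (Nat.choose (2 * n) n : ℚ) ^ 2 * (Nat.choose (2 * m) m : ℚ) / ((n : ℚ) ^ 2 * m) * U n m := by
    have h1 : ∑ k ∈ Icc 1 (min n m), B n k ^ 2 * B m k
        = ∑ k ∈ range (min n m), B n (k + 1) ^ 2 * B m (k + 1) := by
      rw [Finset.range_eq_Ico, Finset.sum_Ico_add' (fun k => B n k ^ 2 * B m k) 0 (min n m) 1]
      rfl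
    rw [h1]
    unfold U
    rw [Finset.mul_sum]
    have h2 : ∑ k ∈ range (min n m), B n (k + 1) ^ 2 * B m (k + 1)
        = ∑ k ∈ range (min n m), (Nat.choose (2 * n) n : ℚ) ^ 2 * (Nat.choose (2 * m) m : ℚ)
            / ((n : ℚ) ^ 2 * m) * (((k : ℚ) + 1) ^ 3 * p n (k + 1) ^ 2 * p m (k + 1)) := by
      apply Finset.sum_congr rfl
      intro k hk
      have hk' := Finset.mem_range.mp hk
      have hkn : k + 1 ≤ n := by omega
      have hkm : k + 1 ≤ m := by omega
      have s1 : Nat.choose (2 * n) (n - (k + 1)) = Nat.choose (2 * n) (n + (k + 1)) := by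
        apply Nat.choose_symm_of_eq_add; omega
      have s2 : Nat.choose (2 * m) (m - (k + 1)) = Nat.choose (2 * m) (m + (k + 1)) := by
        apply Nat.choose_symm_of_eq_add; omega
      unfold B p
      rw [s1, s2]
      push_cast
      field_simp
    rw [h2]
    apply Finset.sum_subset (Finset.range_mono (min_le_left n m))
    intro k hk hk2
    have hk' := Finset.mem_range.mp hk
    have hk2' : ¬ k < min n m := fun h => hk2 (Finset.mem_range.mpr h)
    rw [p_big m (k + 1) (by omega)]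
    ring
  rw [hL]
  have hU := U_closed n hn m
  have C0 := ch_ne n m
  have hU' : U n m = (n : ℚ) ^ 2 * (m * (Nat.choose (n + m) n : ℚ) ^ 2 - (n + 2 * m) * T n m)
      / (2 * (Nat.choose (n + m) n : ℚ) ^ 2) := by
    rw [eq_div_iff (by positivity)]
    linarith
  rcases le_total m n with h | h
  · rw [min_eq_right h, max_eq_left h, hU']
    unfold T
    field_simp
  · rw [min_eq_left h, max_eq_right h, hU']
    have e2 : n + n = 2 * n := by ring
    rw [e2]
    have hTT := T_T' n hn m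
    have hT : T n m = m * (Nat.choose (n + m) n : ℚ) * T' n m / (n * (Nat.choose (2 * n) n : ℚ)) := by
      rw [eq_div_iff (by positivity)]
      linarith
    rw [hT]
    unfold T'
    field_simp

end Pool.Agent.Results.MP_651eca_nt.MixedCubicSum
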